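import Pool.Agent.Lib.MP_1cdd17_nt.Assembly

set_option autoImplicit false

open Pool.Agent.MP_1cdd17_nt

/-- The continued fraction `K(x)` diverges at every point of the unit circle that is not a root of
unity: the set of such points at which it converges is empty. -/
theorem Pool.Agent.Lib.MP_1cdd17_nt.Old.Divergence.result :
    {x : ℂ | ‖x‖ = 1 ∧ (∀ n : ℕ, 0 < n → x ^ n ≠ 1) ∧ Converges x} = ∅ := by
  rw [Set.eq_empty_iff_forall_notMem]
  rintro x ⟨hx, hroot, hconv⟩
  obtain ⟨θ, hθ⟩ := Complex.norm_eq_one_iff x |>.1 hx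
  have hx2 : x = e (θ / (2 * Real.pi)) := by
    rw [← hθ, e]
    congr 1
    push_cast
    have : (Real.pi : ℂ) ≠ 0 := by exact_mod_cast Real.pi_ne_zero
    field_simp
  have hirr : Irrational (θ / (2 * Real.pi)) := by
    rintro ⟨r, hr⟩
    apply hroot r.den r.den_pos
    rw [hx2, ← hr, e, ← Complex.exp_nat_mul, Complex.exp_eq_one_iff]
    refine ⟨r.num, ?_⟩
    have h1 : ((r : ℝ) : ℂ) = (r.num : ℂ) / (r.den : ℂ) := by
      push_cast
      exact_mod_cast (Rat.num_div_den r).symm
    have h2 : (r.den : ℂ) ≠ 0 := by exact_mod_cast r.den_pos.ne'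
    rw [h1]
    field_simp
  rw [hx2] at hconv
  exact not_converges_of_mainLemma Pool.Agent.Lib.MP_1cdd17_nt.mainLemma hirr hconv
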